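import Pool.Agent.HEC.Stmts

/-!
Row RND of HEC: rounding in a bipartite graph without raising the sum of the absolute values.
-/

set_option autoImplicit false

open Finset

namespace Pool.Agent.HEC.H65

open Pool.Agent.HEC

/-- the real number is an integer -/
def IsI (r : ℝ) : Prop := ∃ n : ℤ, r = (n : ℝ)

theorem IsI.zero : IsI 0 := ⟨0, by simp⟩

theorem IsI.sum {α : Type} (s : Finset α) (f : α → ℝ) (h : ∀ a ∈ s, IsI (f a)) :
    IsI (∑ a ∈ s, f a) := by
  classical
  induction s using Finset.induction_on with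
  | empty => simpa using IsI.zero
  | insert a s ha ih =>
      rw [Finset.sum_insert ha]
      obtain ⟨n, hn⟩ := h a (Finset.mem_insert_self a s)
      obtain ⟨m, hm⟩ := ih (fun b hb => h b (Finset.mem_insert_of_mem hb))
      exact ⟨n + m, by rw [hn, hm]; push_cast; ring⟩

theorem IsI.sub {a b : ℝ} (ha : IsI a) (hb : IsI b) : IsI (a - b) := by
  obtain ⟨n, hn⟩ := ha
  obtain ⟨m, hm⟩ := hb
  exact ⟨n - m, by rw [hn, hm]; push_cast; ring⟩

variable {V : Type}

/-- the index type of the unknowns -/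
def PP (t : V → Bool) (x : V → V → ℝ) : Type := {p : V × V // t p.1 = true ∧ ¬ IsI (x p.1 p.2)}

noncomputable instance instFinPP [Fintype V] (t : V → Bool) (x : V → V → ℝ) : Fintype (PP t x) := by
  classical
  exact inferInstanceAs (Fintype {p : V × V // t p.1 = true ∧ ¬ IsI (x p.1 p.2)})

open Classical in
/-- one half of the extension -/
noncomputable def hf (t : V → Bool) (x : V → V → ℝ) (z : PP t x → ℝ) (u v : V) : ℝ :=
  if h : t u = true ∧ ¬ IsI (x u v) then z ⟨(u, v), h⟩ else 0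

/-- the symmetric extension -/
noncomputable def ext (t : V → Bool) (x : V → V → ℝ) (z : PP t x → ℝ) (u v : V) : ℝ :=
  hf t x z u v + hf t x z v u

theorem hf_add (t : V → Bool) (x : V → V → ℝ) (z z' : PP t x → ℝ) (u v : V) :
    hf t x (z + z') u v = hf t x z u v + hf t x z' u v := by
  unfold hf
  split_ifs <;> simp

theorem hf_smul (t : V → Bool) (x : V → V → ℝ) (c : ℝ) (z : PP t x → ℝ) (u v : V) :
    hf t x (c • z) u v = c * hf t x z u v := by
  unfold hf
  split_ifs <;> simp

theorem ext_symm (t : V → Bool) (x : V → V → ℝ) (z : PP t x → ℝ) (u v : V) :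
    ext t x z u v = ext t x z v u := by
  unfold ext; ring

theorem ext_supp (t : V → Bool) (x : V → V → ℝ) (hx : ∀ u v, x u v = x v u) (z : PP t x → ℝ)
    (u v : V) (h : IsI (x u v)) : ext t x z u v = 0 := by
  unfold ext hf
  have h' : IsI (x v u) := by rw [← hx u v]; exact h
  rw [dif_neg (fun hh => hh.2 h), dif_neg (fun hh => hh.2 h')]
  simp

/-- the linear map -/
noncomputable def DD [Fintype V] (t : V → Bool) (x : V → V → ℝ) (B : Type) (j : B → V) :
    (PP t x → ℝ) →ₗ[ℝ] (B → ℝ) where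
  toFun z := fun b => ∑ w, ext t x z (j b) w
  map_add' z z' := by
    funext b
    simp only [Pi.add_apply, ext, hf_add]
    rw [← Finset.sum_add_distrib]
    exact Finset.sum_congr rfl (fun w _ => by ring)
  map_smul' c z := by
    funext b
    simp only [Pi.smul_apply, ext, hf_smul, RingHom.id_apply, smul_eq_mul]
    rw [Finset.mul_sum]
    exact Finset.sum_congr rfl (fun w _ => by ring)

/-- a vertex with one fractional value has two of them -/
theorem two_frac [Fintype V] (y : V → ℝ) (b : ℤ) (hb : ∑ w, y w = (b : ℝ)) (w0 : V)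
    (h0 : ¬ IsI (y w0)) : ∃ w1, w1 ≠ w0 ∧ ¬ IsI (y w1) := by
  classical
  by_contra hcon
  push Not at hcon
  apply h0
  have h1 : y w0 = (b : ℝ) - ∑ w ∈ univ.erase w0, y w := by
    rw [← hb, ← Finset.add_sum_erase univ y (Finset.mem_univ w0)]
    ring
  rw [h1]
  apply IsI.sub ⟨b, rfl⟩
  apply IsI.sum
  intro w hw
  exact hcon w (Finset.ne_of_mem_erase hw)

/-- the number of the fractional vertices is at most the number of unknowns -/
theorem card_le [Fintype V] (t : V → Bool) (x : V → V → ℝ) (b : V → ℤ)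
    (hx : ∀ u v, x u v = x v u) (hb : ∀ v, ∑ w, x v w = (b v : ℝ))
    (ht : ∀ u v, ¬ IsI (x u v) → t u ≠ t v) (A : Finset V)
    (hA : ∀ v, v ∈ A ↔ ∃ w, ¬ IsI (x v w)) : A.card ≤ Fintype.card (PP t x) := by
  classical
  -- the sets of pairs
  have hP : Fintype.card (PP t x) =
      (univ.filter (fun p : V × V => t p.1 = true ∧ ¬ IsI (x p.1 p.2))).card := by
    rw [← Fintype.card_coe]
    apply Fintype.card_congr
    exact {
      toFun := fun p => ⟨p.1, by simpa using p.2⟩
      invFun := fun p => ⟨p.1, (Finset.mem_filter.mp p.2).2⟩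
      left_inv := fun p => rfl
      right_inv := fun p => rfl }
  have hQ : (univ.filter (fun p : V × V => t p.1 = false ∧ ¬ IsI (x p.1 p.2))).card =
      (univ.filter (fun p : V × V => t p.1 = true ∧ ¬ IsI (x p.1 p.2))).card := by
    apply Finset.card_bij (fun p _ => (p.2, p.1))
    · intro p hp
      simp only [Finset.mem_filter, Finset.mem_univ, true_and] at hp ⊢
      have h1 := ht _ _ hp.2
      refine ⟨?_, ?_⟩
      · rw [hp.1] at h1
        cases h : t p.2 with
        | false => rw [h] at h1; exact absurd rfl h1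
        | true => rfl
      · rw [← hx]; exact hp.2
    · intro p _ q _ h
      simp only [Prod.mk.injEq] at h
      exact Prod.ext h.2 h.1
    · intro p hp
      simp only [Finset.mem_filter, Finset.mem_univ, true_and] at hp
      refine ⟨(p.2, p.1), ?_, rfl⟩
      simp only [Finset.mem_filter, Finset.mem_univ, true_and]
      have h1 := ht _ _ hp.2
      refine ⟨?_, ?_⟩
      · rw [hp.1] at h1
        cases h : t p.2 with
        | false => rfl
        | true => rw [h] at h1; exact absurd rfl h1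
      · rw [← hx]; exact hp.2
  have hall : (univ.filter (fun p : V × V => ¬ IsI (x p.1 p.2))).card =
      (univ.filter (fun p : V × V => t p.1 = true ∧ ¬ IsI (x p.1 p.2))).card +
      (univ.filter (fun p : V × V => t p.1 = false ∧ ¬ IsI (x p.1 p.2))).card := by
    rw [← Finset.card_union_of_disjoint]
    · congr 1
      ext p
      simp only [Finset.mem_filter, Finset.mem_univ, true_and, Finset.mem_union]
      cases t p.1 <;> simp
    · rw [Finset.disjoint_left]
      intro p hp hq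
      simp only [Finset.mem_filter, Finset.mem_univ, true_and] at hp hq
      rw [hp.1] at hq
      exact absurd hq.1 (by simp)
  have hsum : (univ.filter (fun p : V × V => ¬ IsI (x p.1 p.2))).card =
      ∑ v, (univ.filter (fun w : V => ¬ IsI (x v w))).card := by
    rw [Finset.card_filter]
    rw [Fintype.sum_prod_type]
    apply Finset.sum_congr rfl
    intro v _
    rw [Finset.card_filter]
  have hlow : 2 * A.card ≤ ∑ v, (univ.filter (fun w : V => ¬ IsI (x v w))).card := by
    calc 2 * A.card = ∑ v ∈ A, 2 := by rw [Finset.sum_const, smul_eq_mul]; ring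
      _ ≤ ∑ v ∈ A, (univ.filter (fun w : V => ¬ IsI (x v w))).card := by
          apply Finset.sum_le_sum
          intro v hv
          obtain ⟨w0, hw0⟩ := (hA v).mp hv
          obtain ⟨w1, hw1, hw1'⟩ := two_frac (x v) (b v) (hb v) w0 hw0
          have hsub : ({w0, w1} : Finset V) ⊆ univ.filter (fun w : V => ¬ IsI (x v w)) := by
            intro w hw
            simp only [Finset.mem_insert, Finset.mem_singleton] at hw
            simp only [Finset.mem_filter, Finset.mem_univ, true_and]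
            rcases hw with h | h
            · rw [h]; exact hw0
            · rw [h]; exact hw1'
          have h2 := Finset.card_le_card hsub
          rw [Finset.card_pair (Ne.symm hw1)] at h2
          exact h2
      _ ≤ ∑ v, (univ.filter (fun w : V => ¬ IsI (x v w))).card := by
          apply Finset.sum_le_sum_of_subset
          exact Finset.subset_univ _
  omega

/-- there is a direction -/
theorem exists_dir [Fintype V] (t : V → Bool) (x : V → V → ℝ) (b : V → ℤ)
    (hx : ∀ u v, x u v = x v u) (hb : ∀ v, ∑ w, x v w = (b v : ℝ))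
    (ht : ∀ u v, ¬ IsI (x u v) → t u ≠ t v) (hex : ∃ u v, ¬ IsI (x u v)) :
    ∃ Z : V → V → ℝ, (∀ u v, Z u v = Z v u) ∧ (∀ u v, IsI (x u v) → Z u v = 0) ∧
      (∀ v, ∑ w, Z v w = 0) ∧ ∃ u v, Z u v ≠ 0 := by
  classical
  obtain ⟨a0, w0, haw⟩ := hex
  obtain ⟨A, hA⟩ : ∃ A : Finset V, ∀ v, v ∈ A ↔ ∃ w, ¬ IsI (x v w) :=
    ⟨univ.filter (fun v => ∃ w, ¬ IsI (x v w)), fun v => by simp⟩
  have ha0 : a0 ∈ A := (hA a0).mpr ⟨w0, haw⟩
  have hcard := card_le t x b hx hb ht A hA
  have hlt : Module.finrank ℝ ({v // v ∈ A.erase a0} → ℝ) < Module.finrank ℝ (PP t x → ℝ) := by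
    rw [Module.finrank_fintype_fun_eq_card, Module.finrank_fintype_fun_eq_card, Fintype.card_coe,
      Finset.card_erase_of_mem ha0]
    have : 0 < A.card := Finset.card_pos.mpr ⟨a0, ha0⟩
    omega
  have hker := LinearMap.ker_ne_bot_of_finrank_lt
    (f := DD t x {v // v ∈ A.erase a0} (fun b => b.1)) hlt
  obtain ⟨z, hz, hz0⟩ := Submodule.exists_mem_ne_zero_of_ne_bot hker
  rw [LinearMap.mem_ker] at hz
  have hz1 : ∀ v ∈ A.erase a0, ∑ w, ext t x z v w = 0 := by
    intro v hv
    have := congrFun hz ⟨v, hv⟩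
    exact this
  have hz2 : ∀ v, v ≠ a0 → ∑ w, ext t x z v w = 0 := by
    intro v hv
    by_cases hvA : v ∈ A
    · exact hz1 v (Finset.mem_erase.mpr ⟨hv, hvA⟩)
    · apply Finset.sum_eq_zero
      intro w _
      apply ext_supp t x hx z
      by_contra hcon
      exact hvA ((hA v).mpr ⟨w, hcon⟩)
  have hrel : ∑ v, ∑ w, (sg (t v) : ℝ) * ext t x z v w = 0 := by
    have h1 : ∑ v, ∑ w, (sg (t v) : ℝ) * ext t x z v w =
        - ∑ v, ∑ w, (sg (t v) : ℝ) * ext t x z v w := by
      conv_lhs => rw [Finset.sum_comm]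
      rw [← Finset.sum_neg_distrib]
      apply Finset.sum_congr rfl
      intro w _
      rw [← Finset.sum_neg_distrib]
      apply Finset.sum_congr rfl
      intro v _
      rw [ext_symm t x z v w]
      by_cases h : IsI (x w v)
      · rw [ext_supp t x hx z w v h]; simp
      · have h2 := ht w v h
        have h3 : (sg (t v) : ℝ) = - (sg (t w) : ℝ) := by
          cases h4 : t v <;> cases h5 : t w
          · rw [h4, h5] at h2; exact absurd rfl h2
          · simp [sg]
          · simp [sg]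
          · rw [h4, h5] at h2; exact absurd rfl h2
        rw [h3]; ring
    linarith
  have hz3 : ∑ w, ext t x z a0 w = 0 := by
    have h1 : ∑ v, ∑ w, (sg (t v) : ℝ) * ext t x z v w =
        (sg (t a0) : ℝ) * ∑ w, ext t x z a0 w := by
      rw [Finset.sum_eq_single a0]
      · rw [Finset.mul_sum]
      · intro v _ hv
        rw [← Finset.mul_sum, hz2 v hv]; simp
      · intro h; exact absurd (Finset.mem_univ a0) h
    rw [h1] at hrel
    rcases mul_eq_zero.mp hrel with h | h
    · exfalso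
      cases h4 : t a0 <;> rw [h4] at h <;> simp [sg] at h
    · exact h
  refine ⟨ext t x z, ext_symm t x z, fun u v h => ext_supp t x hx z u v h, ?_, ?_⟩
  · intro v
    by_cases hv : v = a0
    · rw [hv]; exact hz3
    · exact hz2 v hv
  · by_contra hcon
    push Not at hcon
    apply hz0
    funext p
    obtain ⟨⟨u, v⟩, hp⟩ := p
    have h1 := hcon u v
    have h2 : t u = true := hp.1
    have h3 := ht u v hp.2
    have h4 : ¬ (t v = true ∧ ¬ IsI (x v u)) := by
      rintro ⟨h5, _⟩
      rw [h2, h5] at h3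
      exact h3 rfl
    unfold ext hf at h1
    rw [dif_pos hp, dif_neg h4, add_zero] at h1
    exact h1

open Classical in
/-- the number of fractional pairs -/
noncomputable def ni [Fintype V] (x : V → V → ℝ) : ℕ :=
  (univ.filter (fun p : V × V => ¬ IsI (x p.1 p.2))).card

/-- one step of the rounding -/
theorem step [Fintype V] (t : V → Bool) (x : V → V → ℝ) (b : V → ℤ)
    (hx : ∀ u v, x u v = x v u) (hb : ∀ v, ∑ w, x v w = (b v : ℝ))
    (ht : ∀ u v, ¬ IsI (x u v) → t u ≠ t v) (hr : ∀ u v, |x u v| ≤ 1)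
    (hex : ∃ u v, ¬ IsI (x u v)) :
    ∃ y : V → V → ℝ, (∀ u v, y u v = y v u) ∧ (∀ v, ∑ w, y v w = (b v : ℝ)) ∧
      (∀ u v, |y u v| ≤ 1) ∧ (∀ u v, IsI (x u v) → y u v = x u v) ∧ ni y < ni x ∧
      ∑ u, ∑ v, |y u v| ≤ ∑ u, ∑ v, |x u v| := by
  classical
  obtain ⟨Z0, hZs0, hZi0, hZb0, hZn0⟩ := exists_dir t x b hx hb ht hex
  -- the sign
  obtain ⟨s, hs⟩ : ∃ s : V → V → ℝ, ∀ u v, s u v = if 0 ≤ x u v then 1 else -1 :=
    ⟨fun u v => if 0 ≤ x u v then 1 else -1, fun u v => rfl⟩
  obtain ⟨Z, hZs, hZi, hZb, hZn, hslope⟩ : ∃ Z : V → V → ℝ, (∀ u v, Z u v = Z v u) ∧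
      (∀ u v, IsI (x u v) → Z u v = 0) ∧ (∀ v, ∑ w, Z v w = 0) ∧ (∃ u v, Z u v ≠ 0) ∧
      ∑ u, ∑ v, s u v * Z u v ≤ 0 := by
    rcases le_total (∑ u, ∑ v, s u v * Z0 u v) 0 with h | h
    · exact ⟨Z0, hZs0, hZi0, hZb0, hZn0, h⟩
    · refine ⟨fun u v => - Z0 u v, fun u v => by show - Z0 u v = - Z0 v u; rw [hZs0 u v],
        fun u v hh => by show - Z0 u v = 0; rw [hZi0 u v hh]; simp,
        fun v => by rw [Finset.sum_neg_distrib, hZb0 v]; simp, ?_, ?_⟩
      · obtain ⟨u, v, huv⟩ := hZn0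
        exact ⟨u, v, neg_ne_zero.mpr huv⟩
      · have : ∑ u, ∑ v, s u v * - Z0 u v = - ∑ u, ∑ v, s u v * Z0 u v := by
          rw [← Finset.sum_neg_distrib]
          apply Finset.sum_congr rfl
          intro u _
          rw [← Finset.sum_neg_distrib]
          apply Finset.sum_congr rfl
          intro v _
          ring
        rw [this]; linarith
  -- the times
  obtain ⟨T, hT⟩ : ∃ T : V × V → ℝ, ∀ p, T p = if 0 < Z p.1 p.2 then
      ((⌊x p.1 p.2⌋ : ℝ) + 1 - x p.1 p.2) / Z p.1 p.2 else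
      (x p.1 p.2 - (⌊x p.1 p.2⌋ : ℝ)) / (- Z p.1 p.2) := ⟨_, fun p => rfl⟩
  obtain ⟨Q, hQ⟩ : ∃ Q : Finset (V × V), ∀ p, p ∈ Q ↔ Z p.1 p.2 ≠ 0 :=
    ⟨univ.filter (fun p : V × V => Z p.1 p.2 ≠ 0), fun p => by simp⟩
  have hQn : Q.Nonempty := by
    obtain ⟨u, v, huv⟩ := hZn
    exact ⟨(u, v), (hQ (u, v)).mpr huv⟩
  obtain ⟨p0, hp0, hmin⟩ := Finset.exists_min_image Q T hQn
  have hfrac : ∀ u v, Z u v ≠ 0 → (⌊x u v⌋ : ℝ) < x u v ∧ x u v < (⌊x u v⌋ : ℝ) + 1 := by
    intro u v huv
    have h1 : ¬ IsI (x u v) := fun h => huv (hZi u v h)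
    refine ⟨lt_of_le_of_ne (Int.floor_le _) (fun h => h1 ⟨⌊x u v⌋, h.symm⟩), Int.lt_floor_add_one _⟩
  have hTpos : ∀ p ∈ Q, 0 < T p := by
    intro p hp
    have h1 := hfrac p.1 p.2 ((hQ p).mp hp)
    rw [hT p]
    by_cases h2 : 0 < Z p.1 p.2
    · rw [if_pos h2]; exact div_pos (by linarith [h1.2]) h2
    · rw [if_neg h2]
      have h3 : Z p.1 p.2 < 0 := lt_of_le_of_ne (not_lt.mp h2) ((hQ p).mp hp)
      exact div_pos (by linarith [h1.1]) (by linarith)
  obtain ⟨τ, hτ⟩ : ∃ τ : ℝ, τ = T p0 := ⟨_, rfl⟩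
  have hτpos : 0 < τ := by rw [hτ]; exact hTpos p0 hp0
  -- the new values lie in the unit interval
  have hint : ∀ u v, Z u v ≠ 0 → (⌊x u v⌋ : ℝ) ≤ x u v + τ * Z u v ∧
      x u v + τ * Z u v ≤ (⌊x u v⌋ : ℝ) + 1 := by
    intro u v huv
    have h1 := hfrac u v huv
    have h2 : τ ≤ T (u, v) := by rw [hτ]; exact hmin (u, v) ((hQ (u, v)).mpr huv)
    rw [hT (u, v)] at h2
    by_cases h3 : 0 < Z u v
    · rw [if_pos h3, le_div_iff₀ h3] at h2
      have h4 : 0 < τ * Z u v := mul_pos hτpos h3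
      exact ⟨by linarith [h1.1], by linarith⟩
    · rw [if_neg h3] at h2
      have h4 : Z u v < 0 := lt_of_le_of_ne (not_lt.mp h3) huv
      rw [le_div_iff₀ (by linarith : 0 < - Z u v)] at h2
      have h5 : τ * Z u v < 0 := mul_neg_of_pos_of_neg hτpos h4
      exact ⟨by linarith, by linarith [h1.2]⟩
  have hfin : IsI (x p0.1 p0.2 + τ * Z p0.1 p0.2) := by
    have h0 : Z p0.1 p0.2 ≠ 0 := (hQ p0).mp hp0
    by_cases h3 : 0 < Z p0.1 p0.2
    · refine ⟨⌊x p0.1 p0.2⌋ + 1, ?_⟩
      rw [hτ, hT p0, if_pos h3, div_mul_cancel₀ _ h0]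
      push_cast; ring
    · refine ⟨⌊x p0.1 p0.2⌋, ?_⟩
      rw [hτ, hT p0, if_neg h3]
      have h4 : (x p0.1 p0.2 - (⌊x p0.1 p0.2⌋ : ℝ)) / (- Z p0.1 p0.2) * Z p0.1 p0.2 =
          - (x p0.1 p0.2 - (⌊x p0.1 p0.2⌋ : ℝ)) := by
        rw [div_neg, neg_mul, div_mul_cancel₀ _ h0]
      rw [h4]; ring
  have hy : ∀ u v, IsI (x u v) → x u v + τ * Z u v = x u v := by
    intro u v h
    rw [hZi u v h]; simp
  -- floor is 0 or -1
  have hfl : ∀ u v, Z u v ≠ 0 → (⌊x u v⌋ = 0 ∨ ⌊x u v⌋ = -1) := by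
    intro u v huv
    have h1 := hfrac u v huv
    have h2 := abs_le.mp (hr u v)
    have h3 : (⌊x u v⌋ : ℝ) < 1 := by linarith [h1.1]
    have h4 : (-2 : ℝ) < (⌊x u v⌋ : ℝ) := by linarith [h1.2]
    have h5 : ⌊x u v⌋ < 1 := by exact_mod_cast h3
    have h6 : -2 < ⌊x u v⌋ := by exact_mod_cast h4
    omega
  have habs : ∀ u v, |x u v + τ * Z u v| = |x u v| + τ * (s u v * Z u v) := by
    intro u v
    by_cases h : Z u v = 0
    · rw [h]; simp
    · have h1 := hfrac u v h
      have h2 := hint u v h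
      rw [hs u v]
      rcases hfl u v h with h3 | h3
      · rw [h3] at h1 h2
        push_cast at h1 h2
        rw [if_pos (by linarith [h1.1]), abs_of_nonneg h2.1, abs_of_pos h1.1]
        ring
      · rw [h3] at h1 h2
        push_cast at h1 h2
        have h4 : x u v < 0 := by linarith [h1.2]
        have h5 : x u v + τ * Z u v ≤ 0 := by linarith [h2.2]
        rw [if_neg (not_le.mpr h4), abs_of_nonpos h5, abs_of_neg h4]
        ring
  refine ⟨fun u v => x u v + τ * Z u v, ?_, ?_, ?_, hy, ?_, ?_⟩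
  · intro u v
    show x u v + τ * Z u v = x v u + τ * Z v u
    rw [hx u v, hZs u v]
  · intro v
    rw [Finset.sum_add_distrib, ← Finset.mul_sum, hZb v, hb v]; simp
  · intro u v
    show |x u v + τ * Z u v| ≤ 1
    by_cases h : Z u v = 0
    · rw [h]; simpa using hr u v
    · have h2 := hint u v h
      rw [abs_le]
      rcases hfl u v h with h3 | h3
      · rw [h3] at h2; push_cast at h2
        exact ⟨by linarith [h2.1], by linarith [h2.2]⟩
      · rw [h3] at h2; push_cast at h2
        exact ⟨by linarith [h2.1], by linarith [h2.2]⟩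
  · unfold ni
    apply Finset.card_lt_card
    rw [Finset.ssubset_iff_of_subset]
    · refine ⟨p0, ?_, ?_⟩
      · simp only [Finset.mem_filter, Finset.mem_univ, true_and]
        exact fun h => ((hQ p0).mp hp0) (hZi _ _ h)
      · simp only [Finset.mem_filter, Finset.mem_univ, true_and, not_not]
        exact hfin
    · intro p hp
      simp only [Finset.mem_filter, Finset.mem_univ, true_and] at hp ⊢
      intro h
      apply hp
      rw [hy p.1 p.2 h]
      exact h
  · have h1 : ∑ u, ∑ v, |x u v + τ * Z u v| =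
        ∑ u, ∑ v, |x u v| + τ * ∑ u, ∑ v, s u v * Z u v := by
      rw [Finset.mul_sum, ← Finset.sum_add_distrib]
      apply Finset.sum_congr rfl
      intro u _
      rw [Finset.mul_sum, ← Finset.sum_add_distrib]
      apply Finset.sum_congr rfl
      intro v _
      exact habs u v
    show ∑ u, ∑ v, |x u v + τ * Z u v| ≤ ∑ u, ∑ v, |x u v|
    rw [h1]
    have : τ * ∑ u, ∑ v, s u v * Z u v ≤ 0 := mul_nonpos_of_nonneg_of_nonpos hτpos.le hslope
    linarith

/-- Row RND. -/
theorem rnd : RndStmt := by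
  intro V hV E t x b hE hlab hbd
  -- induction on the number of fractional pairs
  have main : ∀ (n : ℕ) (x : V → V → ℝ), ni x ≤ n → (∀ u v, x u v = x v u) →
      (∀ u v, ¬ E.Adj u v → x u v = 0) → (∀ u v, |x u v| ≤ 1) →
      (∀ v, ∑ w, x v w = (b v : ℝ)) →
      ∃ y : V → V → ℝ, (∀ u v, y u v = y v u) ∧ (∀ u v, ¬ E.Adj u v → y u v = 0) ∧
        (∀ u v, |y u v| ≤ 1) ∧ (∀ v, ∑ w, y v w = (b v : ℝ)) ∧ (∀ u v, IsI (y u v)) ∧
        ∑ u, ∑ v, |y u v| ≤ ∑ u, ∑ v, |x u v| := by
    classical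
    intro n
    induction n with
    | zero =>
        intro x hn h1 h2 h3 h4
        refine ⟨x, h1, h2, h3, h4, ?_, le_rfl⟩
        intro u v
        by_contra hcon
        have h5 : ni x = 0 := by omega
        unfold ni at h5
        rw [Finset.card_eq_zero] at h5
        have h6 : (u, v) ∈ univ.filter (fun p : V × V => ¬ IsI (x p.1 p.2)) := by
          simp only [Finset.mem_filter, Finset.mem_univ, true_and]
          exact hcon
        rw [h5] at h6
        exact absurd h6 (Finset.notMem_empty _)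
    | succ n ih =>
        intro x hn h1 h2 h3 h4
        by_cases hex : ∃ u v, ¬ IsI (x u v)
        · have ht : ∀ u v, ¬ IsI (x u v) → t u ≠ t v := by
            intro u v h
            apply hE
            by_contra hcon
            apply h
            rw [h2 u v hcon]
            exact IsI.zero
          obtain ⟨y, y1, y2, y3, y4, y5, y6⟩ := step t x b h1 h4 ht h3 hex
          have y7 : ∀ u v, ¬ E.Adj u v → y u v = 0 := by
            intro u v h
            rw [y4 u v (by rw [h2 u v h]; exact IsI.zero), h2 u v h]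
          obtain ⟨w, w1, w2, w3, w4, w5, w6⟩ := ih y (by omega) y1 y7 y3 y2
          exact ⟨w, w1, w2, w3, w4, w5, le_trans w6 y6⟩
        · push Not at hex
          exact ⟨x, h1, h2, h3, h4, hex, le_rfl⟩
  obtain ⟨y, y1, y2, y3, y4, y5, y6⟩ := main (ni x) x le_rfl hlab.symm hlab.supp hlab.rng
    (fun v => hbd v)
  have hfl : ∀ u v, ((⌊y u v⌋ : ℤ) : ℝ) = y u v := by
    intro u v
    obtain ⟨n, hn⟩ := y5 u v
    rw [hn, Int.floor_intCast]
  refine ⟨fun u v => ⌊y u v⌋, ⟨?_, ?_, ?_⟩, ?_, ?_⟩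
  · intro u v
    show ⌊y u v⌋ = ⌊y v u⌋
    rw [y1 u v]
  · intro u v h
    show ⌊y u v⌋ = 0
    rw [y2 u v h]; simp
  · intro u v
    have h := abs_le.mp (y3 u v)
    rw [← hfl u v] at h
    exact ⟨by exact_mod_cast h.1, by exact_mod_cast h.2⟩
  · intro v
    have h := y4 v
    have h' : ((∑ w, ⌊y v w⌋ : ℤ) : ℝ) = (b v : ℝ) := by
      push_cast
      rw [← h]
      exact Finset.sum_congr rfl (fun w _ => hfl v w)
    exact_mod_cast h'
  · refine le_trans (le_of_eq ?_) y6
    push_cast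
    apply Finset.sum_congr rfl
    intro u _
    apply Finset.sum_congr rfl
    intro v _
    rw [hfl u v]

end Pool.Agent.HEC.H65
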